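import Mathlib

set_option autoImplicit false

open Finset

namespace Pool.Agent.H.MP_885588_nt

lemma newton_bound (k : ℕ) (w q : ℕ → ℂ) (S : ℝ) (hS : 1 ≤ S) (h0 : w 0 = 1)
    (hrec : ∀ n : ℕ, ((n : ℂ) + 1) * w (n + 1) = ∑ p ∈ antidiagonal n, w p.1 * q p.2)
    (hq : ∀ b < k, ‖q b‖ ≤ S) :
    ∀ n ≤ k, S * ‖(n.factorial : ℂ) * w n - q 0 ^ n‖ ≤ n * n.factorial * S ^ n := by
  have hw : ∀ n, n ≤ k → ‖w n‖ ≤ S ^ n := by
    intro n
    induction n using Nat.strong_induction_on with
    | _ n ih =>
      intro hn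
      rcases n with _ | n
      · simp [h0]
      · have h1 := congrArg norm (hrec n)
        have h2 : ‖((n : ℂ) + 1)‖ = (n : ℝ) + 1 := by
          exact_mod_cast Complex.norm_natCast (n + 1)
        rw [norm_mul, h2] at h1
        have h3 : ‖∑ p ∈ antidiagonal n, w p.1 * q p.2‖ ≤ ∑ p ∈ antidiagonal n, S ^ (n + 1) := by
          refine (norm_sum_le _ _).trans (sum_le_sum fun p hp => ?_)
          have hp' := mem_antidiagonal.mp hp
          rw [norm_mul]
          calc _ ≤ S ^ p.1 * S := mul_le_mul (ih p.1 (by omega) (by omega)) (hq p.2 (by omega))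
                (norm_nonneg _) (by positivity)
            _ = S ^ (p.1 + 1) := by ring
            _ ≤ _ := pow_le_pow_right₀ hS (by omega)
        rw [sum_const, Nat.card_antidiagonal, nsmul_eq_mul, ← h1] at h3
        push_cast at h3
        exact le_of_mul_le_mul_left h3 (by positivity)
  intro n
  induction n with
  | zero => simp [h0]
  | succ n ih =>
    intro hn
    have ih' := ih (by omega)
    have h1 := hrec n
    have e : ∑ p ∈ antidiagonal n, w p.1 * q p.2 =
        w n * q 0 + ∑ p ∈ (antidiagonal n).erase (n, 0), w p.1 * q p.2 :=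
      (add_sum_erase _ (fun p : ℕ × ℕ => w p.1 * q p.2) (a := (n, 0)) (by simp)).symm
    have h3 : ‖∑ p ∈ (antidiagonal n).erase (n, 0), w p.1 * q p.2‖ ≤ n * S ^ n := by
      have : ‖∑ p ∈ (antidiagonal n).erase (n, 0), w p.1 * q p.2‖ ≤
          ∑ p ∈ (antidiagonal n).erase (n, 0), S ^ n := by
        refine (norm_sum_le _ _).trans (sum_le_sum fun p hp => ?_)
        have hp' := mem_antidiagonal.mp (mem_of_mem_erase hp)
        have hp2 : p.1 < n := by
          by_contra hc
          apply ne_of_mem_erase hp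
          ext <;> simp <;> omega
        rw [norm_mul]
        calc _ ≤ S ^ p.1 * S := mul_le_mul (hw p.1 (by omega)) (hq p.2 (by omega))
              (norm_nonneg _) (by positivity)
          _ = S ^ (p.1 + 1) := by ring
          _ ≤ _ := pow_le_pow_right₀ hS (by omega)
      rw [sum_const, card_erase_of_mem (by simp), Nat.card_antidiagonal, nsmul_eq_mul] at this
      simpa using this
    have e2 : (((n + 1).factorial : ℕ) : ℂ) * w (n + 1) - q 0 ^ (n + 1) =
        q 0 * ((n.factorial : ℂ) * w n - q 0 ^ n) +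
          n.factorial * ∑ p ∈ (antidiagonal n).erase (n, 0), w p.1 * q p.2 := by
      rw [Nat.factorial_succ]
      push_cast
      rw [e] at h1
      linear_combination (n.factorial : ℂ) * h1
    rw [e2]
    have h4 := hq 0 (by omega)
    have h5 : ‖q 0 * ((n.factorial : ℂ) * w n - q 0 ^ n) +
          n.factorial * ∑ p ∈ (antidiagonal n).erase (n, 0), w p.1 * q p.2‖ ≤
        S * ‖(n.factorial : ℂ) * w n - q 0 ^ n‖ + n.factorial * (n * S ^ n) := by
      refine (norm_add_le _ _).trans (add_le_add ?_ ?_)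
      · rw [norm_mul]
        gcongr
      · rw [norm_mul, Complex.norm_natCast]
        gcongr
    have h6 : (0 : ℝ) ≤ n.factorial := Nat.cast_nonneg _
    have h7 : (0 : ℝ) ≤ n := Nat.cast_nonneg _
    have h8 : 0 ≤ S ^ n := by positivity
    rw [Nat.factorial_succ]
    push_cast
    calc _ ≤ S * (n * n.factorial * S ^ n + n.factorial * (n * S ^ n)) := by
          refine mul_le_mul_of_nonneg_left (h5.trans ?_) (by linarith)
          linarith
      _ = (2 * n) * (n.factorial * S ^ (n + 1)) := by ring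
      _ ≤ ((n + 1) * (n + 1)) * (n.factorial * S ^ (n + 1)) := by
          refine mul_le_mul_of_nonneg_right (by nlinarith) (by positivity)
      _ = _ := by ring

open PowerSeries in
lemma deriv_prod (G Q : ℕ → ℂ⟦X⟧) (h : ∀ a, d⁄dX ℂ (G a) = G a * Q a) (M : ℕ) :
    d⁄dX ℂ (∏ a ∈ range M, G a) = (∏ a ∈ range M, G a) * ∑ a ∈ range M, Q a := by
  induction M with
  | zero => simp
  | succ M ih =>
    rw [prod_range_succ, sum_range_succ, Derivation.leibniz, ih, h]
    simp only [smul_eq_mul]
    ring

open PowerSeries in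
lemma newton_of (G : ℕ → ℂ⟦X⟧) (c : ℕ → ℕ → ℂ) (h : ∀ a, d⁄dX ℂ (G a) = G a * mk (c a))
    (M n : ℕ) : ((n : ℂ) + 1) * coeff (n + 1) (∏ a ∈ range M, G a) =
      ∑ p ∈ antidiagonal n, coeff p.1 (∏ a ∈ range M, G a) * ∑ a ∈ range M, c a p.2 := by
  have h1 := congrArg (coeff n) (deriv_prod G (fun a => mk (c a)) h M)
  rw [coeff_derivative, coeff_mul] at h1
  rw [mul_comm, h1]
  simp [map_sum]

/-- Tuples with entries below `M`. -/
def box (k M : ℕ) : Finset (Fin k → ℕ) := Fintype.piFinset fun _ : Fin k => range M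

lemma mem_box {k M : ℕ} {a : Fin k → ℕ} : a ∈ box k M ↔ ∀ j, a j < M := by
  simp [box]

open Classical in
noncomputable def Wm (x : ℕ → ℂ) (M k : ℕ) : ℂ :=
  ∑ a ∈ (box k M).filter Monotone, ∏ j, x (a j)

open Classical in
noncomputable def Ws (x : ℕ → ℂ) (M k : ℕ) : ℂ :=
  ∑ a ∈ (box k M).filter StrictMono, ∏ j, x (a j)

lemma Wm_zero (x : ℕ → ℂ) (M : ℕ) : Wm x M 0 = 1 := by
  classical
  unfold Wm
  rw [filter_true_of_mem (fun a _ => Subsingleton.monotone a)]
  simp [box]

lemma Ws_zero (x : ℕ → ℂ) (M : ℕ) : Ws x M 0 = 1 := by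
  classical
  unfold Ws
  rw [filter_true_of_mem (fun a _ => Subsingleton.strictMono a)]
  simp [box]

lemma box_zero (k : ℕ) : box (k + 1) 0 = ∅ := by
  ext a
  simp only [mem_box, notMem_empty, iff_false, not_forall]
  exact ⟨0, by simp⟩

lemma Wm_succ (x : ℕ → ℂ) (M k : ℕ) :
    Wm x (M + 1) (k + 1) = Wm x M (k + 1) + x M * Wm x (M + 1) k := by
  classical
  unfold Wm
  rw [← sum_filter_add_sum_filter_not _ (fun a : Fin (k + 1) → ℕ => a (Fin.last k) < M)]
  congr 1
  · congr 1
    ext a
    simp only [mem_filter, mem_box]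
    constructor
    · rintro ⟨⟨-, h2⟩, h3⟩
      exact ⟨fun j => lt_of_le_of_lt (h2 (Fin.le_last j)) h3, h2⟩
    · rintro ⟨h1, h2⟩
      exact ⟨⟨fun j => (h1 j).trans (Nat.lt_succ_self M), h2⟩, h1 _⟩
  · rw [mul_sum]
    refine sum_nbij' (fun a => Fin.init a) (fun b => Fin.snoc b M) ?_ ?_ ?_ ?_ ?_
    · intro a ha
      simp only [mem_filter, mem_box] at ha ⊢
      exact ⟨fun j => ha.1.1 _, fun i j hij => ha.1.2 (Fin.castSucc_le_castSucc_iff.mpr hij)⟩
    · intro b hb
      simp only [mem_filter, mem_box] at hb ⊢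
      refine ⟨⟨fun j => ?_, fun i j hij => ?_⟩, by simp⟩
      · induction j using Fin.lastCases with
        | last => simp
        | cast j => simpa using hb.1 j
      · induction j using Fin.lastCases with
        | last =>
          induction i using Fin.lastCases with
          | last => exact le_rfl
          | cast i => simpa using Nat.lt_succ_iff.mp (hb.1 i)
        | cast j =>
          induction i using Fin.lastCases with
          | last => exact absurd hij (not_le.mpr (Fin.castSucc_lt_last j))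
          | cast i => simpa using hb.2 (Fin.castSucc_le_castSucc_iff.mp hij)
    · intro a ha
      simp only [mem_filter, mem_box] at ha
      have h1 : a (Fin.last k) = M := by
        have := ha.1.1 (Fin.last k)
        omega
      rw [← h1]
      exact Fin.snoc_init_self a
    · intro b _
      simp
    · intro a ha
      simp only [mem_filter, mem_box] at ha
      have h1 : a (Fin.last k) = M := by
        have := ha.1.1 (Fin.last k)
        omega
      rw [Fin.prod_univ_castSucc, h1, mul_comm]
      rfl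

lemma Ws_succ (x : ℕ → ℂ) (M k : ℕ) :
    Ws x (M + 1) (k + 1) = Ws x M (k + 1) + x M * Ws x M k := by
  classical
  unfold Ws
  rw [← sum_filter_add_sum_filter_not _ (fun a : Fin (k + 1) → ℕ => a (Fin.last k) < M)]
  congr 1
  · congr 1
    ext a
    simp only [mem_filter, mem_box]
    constructor
    · rintro ⟨⟨-, h2⟩, h3⟩
      exact ⟨fun j => lt_of_le_of_lt (h2.monotone (Fin.le_last j)) h3, h2⟩
    · rintro ⟨h1, h2⟩
      exact ⟨⟨fun j => (h1 j).trans (Nat.lt_succ_self M), h2⟩, h1 _⟩
  · rw [mul_sum]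
    refine sum_nbij' (fun a => Fin.init a) (fun b => Fin.snoc b M) ?_ ?_ ?_ ?_ ?_
    · intro a ha
      simp only [mem_filter, mem_box] at ha ⊢
      refine ⟨fun j => ?_, fun i j hij => ha.1.2 (Fin.castSucc_lt_castSucc_iff.mpr hij)⟩
      have h1 := ha.1.1 (Fin.last k)
      have h2 := ha.1.2 (Fin.castSucc_lt_last j)
      show a j.castSucc < M
      omega
    · intro b hb
      simp only [mem_filter, mem_box] at hb ⊢
      refine ⟨⟨fun j => ?_, fun i j hij => ?_⟩, by simp⟩
      · induction j using Fin.lastCases with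
        | last => simp
        | cast j => simpa using (hb.1 j).le
      · induction j using Fin.lastCases with
        | last =>
          induction i using Fin.lastCases with
          | last => exact absurd hij (lt_irrefl _)
          | cast i => simpa using hb.1 i
        | cast j =>
          induction i using Fin.lastCases with
          | last => exact absurd hij (not_lt.mpr (Fin.castSucc_lt_last j).le)
          | cast i => simpa using hb.2 (Fin.castSucc_lt_castSucc_iff.mp hij)
    · intro a ha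
      simp only [mem_filter, mem_box] at ha
      have h1 : a (Fin.last k) = M := by
        have := ha.1.1 (Fin.last k)
        omega
      rw [← h1]
      exact Fin.snoc_init_self a
    · intro b _
      simp
    · intro a ha
      simp only [mem_filter, mem_box] at ha
      have h1 : a (Fin.last k) = M := by
        have := ha.1.1 (Fin.last k)
        omega
      rw [Fin.prod_univ_castSucc, h1, mul_comm]
      rfl

open PowerSeries in
lemma geom_mul (y : ℂ) :
    (mk fun n => y ^ n : ℂ⟦X⟧) = 1 + C y * X * (mk fun n => y ^ n : ℂ⟦X⟧) := by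
  ext n
  rcases n with _ | n
  · simp [mul_assoc]
  · rw [map_add, mul_assoc, coeff_C_mul, coeff_succ_X_mul, coeff_mk, coeff_mk, coeff_one]
    simp [pow_succ']

open PowerSeries in
lemma Wm_eq (x : ℕ → ℂ) (M : ℕ) :
    ∀ k, Wm x M k = coeff k (∏ a ∈ range M, (mk fun n => x a ^ n : ℂ⟦X⟧)) := by
  induction M with
  | zero =>
    intro k
    rcases k with _ | k
    · simp [Wm_zero]
    · simp [Wm, box_zero, coeff_one]
  | succ M ih =>
    intro k
    induction k with
    | zero =>
      rw [Wm_zero, coeff_zero_eq_constantCoeff, map_prod]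
      simp
    | succ k ihk =>
      rw [Wm_succ, ih, ihk]
      have : (∏ a ∈ range (M + 1), (mk fun n => x a ^ n : ℂ⟦X⟧)) =
          (∏ a ∈ range M, (mk fun n => x a ^ n : ℂ⟦X⟧)) +
            C (x M) * (X * ∏ a ∈ range (M + 1), (mk fun n => x a ^ n : ℂ⟦X⟧)) := by
        rw [prod_range_succ]
        nth_rewrite 1 [geom_mul (x M)]
        ring
      conv_rhs => rw [this, map_add, coeff_C_mul, coeff_succ_X_mul]

open PowerSeries in
lemma Ws_eq (x : ℕ → ℂ) (M : ℕ) :
    ∀ k, Ws x M k = coeff k (∏ a ∈ range M, (1 + C (x a) * X : ℂ⟦X⟧)) := by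
  induction M with
  | zero =>
    intro k
    rcases k with _ | k
    · simp [Ws_zero]
    · simp [Ws, box_zero, coeff_one]
  | succ M ih =>
    intro k
    rcases k with _ | k
    · rw [Ws_zero, coeff_zero_eq_constantCoeff, map_prod]
      simp
    · rw [Ws_succ, ih, ih]
      have : (∏ a ∈ range (M + 1), (1 + C (x a) * X : ℂ⟦X⟧)) =
          (∏ a ∈ range M, (1 + C (x a) * X : ℂ⟦X⟧)) +
            C (x M) * (X * ∏ a ∈ range M, (1 + C (x a) * X : ℂ⟦X⟧)) := by
        rw [prod_range_succ]
        ring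
      rw [this, map_add, coeff_C_mul, coeff_succ_X_mul]

open PowerSeries in
lemma Wm_newton (x : ℕ → ℂ) (M n : ℕ) : ((n : ℂ) + 1) * Wm x M (n + 1) =
    ∑ p ∈ antidiagonal n, Wm x M p.1 * ∑ a ∈ range M, x a ^ (p.2 + 1) := by
  simp only [Wm_eq]
  refine newton_of _ (fun a b => x a ^ (b + 1)) (fun a => ?_) M n
  ext m
  rw [coeff_derivative, coeff_mul]
  simp only [coeff_mk]
  rw [sum_congr rfl (g := fun _ => x a ^ (m + 1)), sum_const, Nat.card_antidiagonal, nsmul_eq_mul]
  · push_cast
    ring
  · intro p hp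
    rw [← mem_antidiagonal.mp hp]
    ring

open PowerSeries in
lemma Ws_newton (x : ℕ → ℂ) (M n : ℕ) : ((n : ℂ) + 1) * Ws x M (n + 1) =
    ∑ p ∈ antidiagonal n, Ws x M p.1 * ((-1) ^ p.2 * ∑ a ∈ range M, x a ^ (p.2 + 1)) := by
  simp only [Ws_eq, mul_sum (range M) _ ((-1 : ℂ) ^ _)]
  refine newton_of _ (fun a b => (-1) ^ b * x a ^ (b + 1)) (fun a => ?_) M n
  ext m
  rw [coeff_derivative, add_mul, one_mul, map_add, map_add, mul_assoc (C (x a)), coeff_C_mul,
    coeff_C_mul, coeff_mk]
  rcases m with _ | m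
  · simp
  · rw [coeff_succ_X_mul, coeff_mk, coeff_one, coeff_X]
    simp
    ring

open Classical in
/-- The pointwise inequality for all three kinds of tuples. -/
theorem pointwise (k i : ℕ) (x : ℕ → ℂ) (M : ℕ) (S : ℝ) (hS : 1 ≤ S)
    (hq : ∀ b < k, ‖∑ a ∈ range M, x a ^ (b + 1)‖ ≤ S) :
    S * ‖∑ a ∈ range M, x a‖ ^ k ≤ S * (k.factorial *
      ‖∑ a ∈ (box k M).filter (fun a => (i = 2 → Monotone a) ∧ (i = 3 → StrictMono a)),
        ∏ j, x (a j)‖) + k * k.factorial * S ^ k := by
  have key : ∀ (w p : ℂ), S * ‖(k.factorial : ℂ) * w - p ^ k‖ ≤ k * k.factorial * S ^ k →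
      S * ‖p‖ ^ k ≤ S * (k.factorial * ‖w‖) + k * k.factorial * S ^ k := by
    intro w p h
    have h1 : ‖p‖ ^ k ≤ k.factorial * ‖w‖ + ‖(k.factorial : ℂ) * w - p ^ k‖ := by
      have := norm_sub_le ((k.factorial : ℂ) * w) ((k.factorial : ℂ) * w - p ^ k)
      rw [sub_sub_cancel, norm_pow, norm_mul, Complex.norm_natCast] at this
      exact this
    have h2 := mul_le_mul_of_nonneg_left h1 (by linarith : 0 ≤ S)
    linarith
  by_cases h2 : i = 2
  · have h := newton_bound k (Wm x M) (fun b => ∑ a ∈ range M, x a ^ (b + 1)) S hS (Wm_zero x M)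
      (Wm_newton x M) hq k le_rfl
    simp only [zero_add, pow_one] at h
    have e : (box k M).filter (fun a => (i = 2 → Monotone a) ∧ (i = 3 → StrictMono a)) =
        (box k M).filter Monotone := filter_congr fun a _ => by simp [h2]
    rw [e]
    exact key _ _ h
  by_cases h3 : i = 3
  · have h := newton_bound k (Ws x M) (fun b => (-1) ^ b * ∑ a ∈ range M, x a ^ (b + 1)) S hS
      (Ws_zero x M) (Ws_newton x M) (fun b hb => by simpa using hq b hb) k le_rfl
    simp only [zero_add, pow_one, pow_zero, one_mul] at h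
    have e : (box k M).filter (fun a => (i = 2 → Monotone a) ∧ (i = 3 → StrictMono a)) =
        (box k M).filter StrictMono := filter_congr fun a _ => by simp [h3]
    rw [e]
    exact key _ _ h
  · rw [filter_true_of_mem (fun a _ => by simp [h2, h3]), box, ← prod_univ_sum]
    simp only [prod_const, card_univ, Fintype.card_fin, norm_pow]
    have h4 : (1 : ℝ) ≤ k.factorial := by exact_mod_cast Nat.factorial_pos k
    have h5 : ‖∑ a ∈ range M, x a‖ ^ k ≤ k.factorial * ‖∑ a ∈ range M, x a‖ ^ k :=
      le_mul_of_one_le_left (by positivity) h4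
    have h6 := mul_le_mul_of_nonneg_left h5 (by linarith : 0 ≤ S)
    have h7 : (0 : ℝ) ≤ k * k.factorial * S ^ k := by positivity
    linarith

end Pool.Agent.H.MP_885588_nt
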