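import Mathlib
import Pool.Agent.H.MP_885588_nt.Newton

set_option autoImplicit false

open Finset Filter Topology

namespace Pool.Agent.H.MP_885588_nt

noncomputable def rr (k i : ℕ) (A : Set ℕ) (n : ℕ) : ℕ :=
  Set.ncard {a : Fin k → ℕ | (∀ j, a j ∈ A) ∧ (∑ j, a j) = n ∧
    (i = 2 → Monotone a) ∧ (i = 3 → StrictMono a)}

open Classical in
noncomputable def xA {R : Type} [CommSemiring R] (A : Set ℕ) (z : R) (a : ℕ) : R :=
  if a ∈ A then z ^ a else 0

open Classical in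
noncomputable def TT (k i M : ℕ) : Finset (Fin k → ℕ) :=
  (box k M).filter (fun a => (i = 2 → Monotone a) ∧ (i = 3 → StrictMono a))

open Classical in
lemma set_eq (k i : ℕ) (A : Set ℕ) (n M : ℕ) (h : n < M) :
    {a : Fin k → ℕ | (∀ j, a j ∈ A) ∧ (∑ j, a j) = n ∧
      (i = 2 → Monotone a) ∧ (i = 3 → StrictMono a)} =
      ↑((TT k i M).filter fun a => (∑ j, a j) = n ∧ ∀ j, a j ∈ A) := by
  ext a
  simp only [Set.mem_ofPred_eq, coe_filter, TT, mem_filter, mem_box]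
  constructor
  · rintro ⟨h1, h2, h3⟩
    refine ⟨⟨fun j => ?_, h3⟩, h2, h1⟩
    have := single_le_sum (f := a) (fun _ _ => Nat.zero_le _) (mem_univ j)
    omega
  · rintro ⟨⟨-, h1⟩, h2, h3⟩
    exact ⟨h3, h2, h1⟩

open Classical in
lemma rr_eq (k i : ℕ) (A : Set ℕ) (n M : ℕ) (h : n < M) :
    rr k i A n = ((TT k i M).filter fun a => (∑ j, a j) = n ∧ ∀ j, a j ∈ A).card := by
  rw [rr, set_eq k i A n M h, Set.ncard_coe_finset]

lemma card_TT (k i M : ℕ) : (TT k i M).card ≤ M ^ k := by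
  classical
  refine (card_filter_le _ _).trans (le_of_eq ?_)
  simp [box]

lemma rr_le (k i : ℕ) (A : Set ℕ) (n : ℕ) : rr k i A n ≤ (n + 1) ^ k := by
  classical
  rw [rr_eq k i A n (n + 1) (Nat.lt_succ_self n)]
  exact (card_filter_le _ _).trans (card_TT _ _ _)

open Classical in
lemma prod_xA {R : Type} [CommSemiring R] {k : ℕ} (A : Set ℕ) (z : R) (a : Fin k → ℕ) :
    ∏ j, xA A z (a j) = if ∀ j, a j ∈ A then z ^ (∑ j, a j) else 0 := by
  split_ifs with h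
  · rw [← prod_pow_eq_pow_sum]
    exact prod_congr rfl fun j _ => by simp [xA, h j]
  · obtain ⟨j, hj⟩ := not_forall.mp h
    exact prod_eq_zero (mem_univ j) (by simp [xA, hj])

lemma gen {R : Type} [CommSemiring R] (k i : ℕ) (A : Set ℕ) (z : R) (M : ℕ) :
    ∑ n ∈ range M, (rr k i A n : R) * z ^ n =
      ∑ a ∈ (TT k i M).filter (fun a => ∑ j, a j < M), ∏ j, xA A z (a j) := by
  classical
  rw [← sum_fiberwise_of_maps_to (s := (TT k i M).filter (fun a => ∑ j, a j < M))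
    (t := range M) (g := fun a => ∑ j, a j) (fun a ha => mem_range.mpr (mem_filter.mp ha).2)]
  refine sum_congr rfl fun n hn => ?_
  have hn' := mem_range.mp hn
  rw [rr_eq k i A n M hn']
  simp only [prod_xA]
  rw [← sum_filter, filter_filter, filter_filter, ← nsmul_eq_mul, ← sum_const]
  refine sum_congr ?_ ?_
  · refine filter_congr fun a _ => ?_
    constructor
    · rintro ⟨h1, h2⟩
      exact ⟨by omega, h1, h2⟩
    · rintro ⟨-, h1, h2⟩
      exact ⟨h1, h2⟩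
  · intro a ha
    rw [(mem_filter.mp ha).2.2.1]

lemma xA_nonneg (A : Set ℕ) (ρ : ℝ) (h : 0 ≤ ρ) (a : ℕ) : 0 ≤ xA A ρ a := by
  unfold xA
  split_ifs <;> positivity

lemma xA_le (A : Set ℕ) (ρ : ℝ) (h : 0 ≤ ρ) (a : ℕ) : xA A ρ a ≤ ρ ^ a := by
  unfold xA
  split_ifs
  · exact le_rfl
  · positivity

lemma xA_summable (A : Set ℕ) (ρ : ℝ) (h : 0 ≤ ρ) (h1 : ρ < 1) : Summable (xA A ρ) :=
  Summable.of_nonneg_of_le (xA_nonneg A ρ h) (xA_le A ρ h) (summable_geometric_of_lt_one h h1)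

noncomputable def phi (A : Set ℕ) (ρ : ℝ) : ℝ := ∑' a, xA A ρ a

lemma phi_nonneg (A : Set ℕ) (ρ : ℝ) (h : 0 ≤ ρ) : 0 ≤ phi A ρ :=
  tsum_nonneg (xA_nonneg A ρ h)

lemma gen_le (k i : ℕ) (A : Set ℕ) (ρ : ℝ) (h : 0 ≤ ρ) (h1 : ρ < 1) (M : ℕ) :
    ∑ n ∈ range M, (rr k i A n : ℝ) * ρ ^ n ≤ phi A ρ ^ k := by
  classical
  rw [gen]
  calc _ ≤ ∑ a ∈ box k M, ∏ j, xA A ρ (a j) := by
        refine sum_le_sum_of_subset_of_nonneg ((filter_subset _ _).trans (filter_subset _ _))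
          fun a _ _ => prod_nonneg fun j _ => xA_nonneg A ρ h _
    _ = (∑ a ∈ range M, xA A ρ a) ^ k := by
        rw [box, ← prod_univ_sum]
        simp
    _ ≤ _ := by
        refine pow_le_pow_left₀ (sum_nonneg fun a _ => xA_nonneg A ρ h a) ?_ k
        exact (xA_summable A ρ h h1).sum_le_tsum _ fun a _ => xA_nonneg A ρ h a

lemma tail (k i : ℕ) (A : Set ℕ) (z : ℂ) (hz : ‖z‖ ≤ 1) (M : ℕ) :
    ‖∑ a ∈ TT k i M, ∏ j, xA A z (a j)‖ ≤
      ‖∑ n ∈ range M, (rr k i A n : ℂ) * z ^ n‖ + (M : ℝ) ^ k * ‖z‖ ^ M := by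
  classical
  rw [gen, ← sum_filter_add_sum_filter_not (TT k i M) (fun a => ∑ j, a j < M)]
  refine (norm_add_le _ _).trans (add_le_add le_rfl ?_)
  refine (norm_sum_le _ _).trans ?_
  calc _ ≤ ∑ a ∈ (TT k i M).filter (fun a => ¬ ∑ j, a j < M), ‖z‖ ^ M := by
        refine sum_le_sum fun a ha => ?_
        rw [prod_xA]
        split_ifs
        · rw [norm_pow]
          exact pow_le_pow_of_le_one (norm_nonneg _) hz (not_lt.mp (mem_filter.mp ha).2)
        · simp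
    _ ≤ _ := by
        rw [sum_const, nsmul_eq_mul]
        refine mul_le_mul_of_nonneg_right ?_ (by positivity)
        exact_mod_cast (card_filter_le _ _).trans (card_TT _ _ _)

lemma abel {R : Type} [CommRing R] (r : ℕ → R) (z : R) (M : ℕ) :
    (1 - z) * ∑ n ∈ range (M + 1), r n * z ^ n + r M * z ^ (M + 1) =
      r 0 + ∑ n ∈ range M, (r (n + 1) - r n) * z ^ (n + 1) := by
  induction M with
  | zero =>
    simp
    ring
  | succ M ih =>
    rw [sum_range_succ, sum_range_succ (fun n => (r (n + 1) - r n) * z ^ (n + 1)), ← add_assoc,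
      ← ih]
    ring

lemma mono_bound (r : ℕ → ℕ) (n0 : ℕ) (h : ∀ n, n0 ≤ n → r n ≤ r (n + 1)) :
    ∃ B : ℝ, 0 ≤ B ∧ ∀ (z : ℂ), ‖z‖ ≤ 1 → ∀ M : ℕ,
      ‖(1 - z) * ∑ n ∈ range (M + 1), (r n : ℂ) * z ^ n‖ ≤
        (1 - ‖z‖) * ∑ n ∈ range (M + 1), (r n : ℝ) * ‖z‖ ^ n + B + 2 * (r M * ‖z‖ ^ (M + 1)) := by
  refine ⟨∑ n ∈ range n0, 2 * |(r (n + 1) : ℝ) - r n|,
    sum_nonneg fun _ _ => by positivity, fun z hz M => ?_⟩
  have h1 := abel (fun n => (r n : ℂ)) z M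
  have h2 := abel (fun n => (r n : ℝ)) ‖z‖ M
  have h3 : ‖(r 0 : ℂ) + ∑ n ∈ range M, ((r (n + 1) : ℂ) - r n) * z ^ (n + 1)‖ ≤
      r 0 + ∑ n ∈ range M, (((r (n + 1) : ℝ) - r n) * ‖z‖ ^ (n + 1) +
        if n < n0 then 2 * |(r (n + 1) : ℝ) - r n| else 0) := by
    refine (norm_add_le _ _).trans (add_le_add (by simp) ((norm_sum_le _ _).trans
      (sum_le_sum fun n _ => ?_)))
    have e : ((r (n + 1) : ℂ) - r n) = (((r (n + 1) : ℝ) - r n : ℝ) : ℂ) := by push_cast; rfl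
    rw [norm_mul, norm_pow, e, Complex.norm_real, Real.norm_eq_abs]
    have hp : ‖z‖ ^ (n + 1) ≤ 1 := pow_le_one₀ (norm_nonneg _) hz
    have hp0 : 0 ≤ ‖z‖ ^ (n + 1) := by positivity
    split_ifs with hn
    · have a1 := neg_abs_le ((r (n + 1) : ℝ) - r n)
      have a2 := abs_nonneg ((r (n + 1) : ℝ) - r n)
      nlinarith
    · have : (r n : ℝ) ≤ r (n + 1) := by exact_mod_cast h n (not_lt.mp hn)
      rw [abs_of_nonneg (by linarith), add_zero]
  have h4 : ∑ n ∈ range M, (if n < n0 then 2 * |(r (n + 1) : ℝ) - r n| else 0) ≤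
      ∑ n ∈ range n0, 2 * |(r (n + 1) : ℝ) - r n| := by
    rw [← sum_filter]
    refine sum_le_sum_of_subset_of_nonneg (fun n hn => mem_range.mpr (mem_filter.mp hn).2)
      fun _ _ _ => by positivity
  rw [sum_add_distrib, ← h1] at h3
  have h5 := norm_sub_le ((1 - z) * ∑ n ∈ range (M + 1), (r n : ℂ) * z ^ n + r M * z ^ (M + 1))
    ((r M : ℂ) * z ^ (M + 1))
  rw [add_sub_cancel_right, norm_mul (r M : ℂ), norm_pow, Complex.norm_natCast] at h5
  linarith

lemma parseval (c : ℕ → ℝ) (M j : ℕ) (hj : 1 ≤ j) :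
    ∫ θ in (0 : ℝ)..Real.pi, ‖∑ a ∈ range M, (c a : ℂ) * Complex.exp (θ * Complex.I) ^ (a * j)‖ ^ 2 =
      Real.pi * ∑ a ∈ range M, c a ^ 2 := by
  have h1 : ∀ θ : ℝ, ‖∑ a ∈ range M, (c a : ℂ) * Complex.exp (θ * Complex.I) ^ (a * j)‖ ^ 2 =
      ∑ a ∈ range M, ∑ b ∈ range M, c a * c b * Real.cos ((((a : ℤ) * j - b * j : ℤ) : ℝ) * θ) := by
    intro θ
    have e : ∀ a : ℕ, Complex.exp (θ * Complex.I) ^ (a * j) =
        Complex.exp (((a * j * θ : ℝ) : ℂ) * Complex.I) := by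
      intro a
      rw [← Complex.exp_nat_mul]
      congr 1
      push_cast
      ring
    simp only [e]
    rw [Complex.sq_norm, Complex.normSq_apply, Complex.re_sum, Complex.im_sum]
    simp only [Complex.re_ofReal_mul, Complex.im_ofReal_mul, Complex.exp_ofReal_mul_I_re,
      Complex.exp_ofReal_mul_I_im]
    rw [sum_mul_sum, sum_mul_sum, ← sum_add_distrib]
    refine sum_congr rfl fun a _ => ?_
    rw [← sum_add_distrib]
    refine sum_congr rfl fun b _ => ?_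
    push_cast
    rw [sub_mul, Real.cos_sub]
    ring
  have h2 : ∀ m : ℤ, ∫ θ in (0 : ℝ)..Real.pi, Real.cos ((m : ℝ) * θ) =
      if m = 0 then Real.pi else 0 := by
    intro m
    split_ifs with hm
    · simp [hm]
    · have hm' : (m : ℝ) ≠ 0 := by exact_mod_cast hm
      rw [intervalIntegral.integral_comp_mul_left (fun x => Real.cos x) hm']
      simp [Real.sin_int_mul_pi]
  simp only [h1]
  rw [intervalIntegral.integral_finsetSum (fun a _ => Continuous.intervalIntegrable (by fun_prop) _ _),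
    mul_sum]
  refine sum_congr rfl fun a ha => ?_
  rw [intervalIntegral.integral_finsetSum (fun b _ => Continuous.intervalIntegrable (by fun_prop) _ _)]
  simp only [intervalIntegral.integral_const_mul, h2]
  rw [sum_eq_single a]
  · simp
    ring
  · intro b _ hb
    rw [if_neg, mul_zero]
    intro h
    apply hb
    have h3 : ((a : ℤ) - b) * j = 0 := by linarith
    rcases mul_eq_zero.mp h3 with h4 | h4
    · omega
    · omega
  · intro h
    exact absurd ha h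

lemma dichotomy (k : ℕ) (hk : 2 ≤ k) (p S X L Φ u κ : ℝ) (hp : 0 ≤ p) (hpS : p ≤ S) (hS : 1 ≤ S)
    (hL : 1 ≤ L) (hΦ : 0 < Φ) (hu0 : 0 < u) (hu1 : u ≤ 1) (hκ : κ ≤ 2 / k)
    (hX : 2 * X ≤ L * Φ ^ k * u) (h : S * p ^ k ≤ S * X + k * k.factorial * S ^ k) :
    p ^ 2 ≤ L ^ 2 * Φ ^ 2 * u ^ κ + (2 * (k * k.factorial) * (2 * k) ^ k) ^ 2 +
      (1 / (2 * k)) ^ 2 * S ^ 2 := by
  have hk0 : (0 : ℝ) < k := by exact_mod_cast (by omega : 0 < k)
  have t1 : 0 ≤ L ^ 2 * Φ ^ 2 * u ^ κ := by positivity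
  have t2 : (0 : ℝ) ≤ (2 * (k * k.factorial) * (2 * k) ^ k) ^ 2 := by positivity
  have t3 : (0 : ℝ) ≤ (1 / (2 * k)) ^ 2 * S ^ 2 := by positivity
  by_cases h1 : p ^ k ≤ 2 * X
  · have h2 : p ^ k ≤ (L * Φ * u ^ (1 / k : ℝ)) ^ k := by
      rw [mul_pow, mul_pow, ← Real.rpow_natCast (u ^ (1 / k : ℝ)), ← Real.rpow_mul hu0.le,
        one_div_mul_cancel hk0.ne', Real.rpow_one]
      refine (h1.trans hX).trans ?_
      gcongr
      exact le_self_pow₀ hL (by omega)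
    have h3 : p ≤ L * Φ * u ^ (1 / k : ℝ) :=
      (pow_le_pow_iff_left₀ hp (by positivity) (by omega)).mp h2
    have h4 : p ^ 2 ≤ (L * Φ * u ^ (1 / k : ℝ)) ^ 2 := by gcongr
    have h5 : (u ^ (1 / k : ℝ)) ^ 2 ≤ u ^ κ := by
      rw [← Real.rpow_natCast (u ^ (1 / k : ℝ)), ← Real.rpow_mul hu0.le]
      refine Real.rpow_le_rpow_of_exponent_ge hu0 hu1 (hκ.trans (le_of_eq ?_))
      push_cast
      ring
    have h6 : (L * Φ * u ^ (1 / k : ℝ)) ^ 2 ≤ L ^ 2 * Φ ^ 2 * u ^ κ := by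
      rw [mul_pow, mul_pow]
      gcongr
    linarith
  · have h2 : S * p ^ k ≤ 2 * (k * k.factorial) * S ^ k := by
      have := mul_le_mul_of_nonneg_left (not_le.mp h1).le (by linarith : 0 ≤ S)
      linarith
    by_cases h3 : S ≤ 2 * (k * k.factorial) * (2 * k) ^ k
    · have : p ^ 2 ≤ (2 * (k * k.factorial) * (2 * k) ^ k) ^ 2 :=
        pow_le_pow_left₀ hp (hpS.trans h3) 2
      linarith
    · have h4 : (2 * (k * k.factorial) * (2 * k) ^ k : ℝ) * p ^ k ≤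
          2 * (k * k.factorial) * S ^ k :=
        le_trans (mul_le_mul_of_nonneg_right (not_le.mp h3).le (by positivity)) h2
      have h5 : (2 * k * p) ^ k ≤ S ^ k := by
        rw [mul_pow]
        rw [mul_assoc] at h4
        exact le_of_mul_le_mul_left h4 (by positivity)
      have h6 : 2 * k * p ≤ S :=
        (pow_le_pow_iff_left₀ (by positivity) (by linarith) (by omega)).mp h5
      have h7 : p ≤ 1 / (2 * k) * S := by
        rw [one_div, ← div_eq_inv_mul, le_div_iff₀ (by positivity)]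
        linarith
      have h8 : p ^ 2 ≤ (1 / (2 * k) * S) ^ 2 := by gcongr
      rw [mul_pow] at h8
      linarith

lemma circle_lower (ρ θ : ℝ) (h0 : 1 / 2 ≤ ρ) (h1 : ρ < 1) (hθ : 0 ≤ θ) (hθ' : θ ≤ Real.pi) :
    θ / 4 ≤ ‖1 - (ρ : ℂ) * Complex.exp (θ * Complex.I)‖ ∧
      1 - ρ ≤ ‖1 - (ρ : ℂ) * Complex.exp (θ * Complex.I)‖ := by
  have e : ‖1 - (ρ : ℂ) * Complex.exp (θ * Complex.I)‖ ^ 2 =
      (1 - ρ) ^ 2 + 2 * ρ * (1 - Real.cos θ) := by
    rw [Complex.sq_norm, Complex.normSq_apply]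
    simp only [Complex.sub_re, Complex.sub_im, Complex.one_re, Complex.one_im,
      Complex.re_ofReal_mul, Complex.im_ofReal_mul, Complex.exp_ofReal_mul_I_re,
      Complex.exp_ofReal_mul_I_im]
    have := Real.sin_sq_add_cos_sq θ
    linear_combination ρ ^ 2 * this
  have h2 := Real.cos_le_one_sub_mul_cos_sq (x := θ) (by rwa [abs_of_nonneg hθ])
  have h3 : 1 / 8 ≤ 2 / Real.pi ^ 2 := by
    rw [div_le_div_iff₀ (by norm_num) (by positivity)]
    have := Real.pi_lt_four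
    have := Real.pi_pos
    nlinarith
  have h4 : θ ^ 2 / 8 ≤ 1 - Real.cos θ := by nlinarith [sq_nonneg θ]
  have h5 := Real.cos_le_one θ
  constructor
  · refine (pow_le_pow_iff_left₀ (by positivity) (norm_nonneg _) two_ne_zero).mp ?_
    rw [e]
    nlinarith [sq_nonneg (1 - ρ), sq_nonneg θ]
  · refine (pow_le_pow_iff_left₀ (by linarith) (norm_nonneg _) two_ne_zero).mp ?_
    rw [e]
    nlinarith

end Pool.Agent.H.MP_885588_nt
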