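import Mathlib
import Pool.Agent.H.MP_885588_nt.Gen

set_option autoImplicit false

open Finset Filter Topology

namespace Pool.Agent.H.MP_885588_nt

lemma xA_mul (A : Set ℕ) (ρ : ℝ) (E : ℂ) (a j : ℕ) (hj : 1 ≤ j) :
    xA A ((ρ : ℂ) * E) a ^ j = ((xA A ρ a ^ j : ℝ) : ℂ) * E ^ (a * j) := by
  unfold xA
  split_ifs
  · push_cast
    rw [mul_pow, mul_pow, ← pow_mul E]
  · simp [zero_pow (by omega : j ≠ 0)]

lemma xA_sq (A : Set ℕ) (ρ : ℝ) (a : ℕ) : xA A ρ a ^ 2 = xA A (ρ ^ 2) a := by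
  unfold xA
  split_ifs
  · rw [← pow_mul, ← pow_mul, mul_comm]
  · simp

lemma functional (k i : ℕ) (hk : 2 ≤ k) (A : Set ℕ) (n0 : ℕ)
    (hmono : ∀ n, n0 ≤ n → rr k i A n ≤ rr k i A (n + 1)) (κ : ℝ) (hκ0 : 0 < κ) (hκ1 : κ < 1)
    (hκ : κ ≤ 2 / k) :
    ∃ C : ℝ, 0 < C ∧ ∀ ρ : ℝ, 1 / 2 ≤ ρ → ρ < 1 → 1 / 2 ≤ (1 - ρ) * phi A ρ ^ k →
      phi A (ρ ^ 2) ≤ C * ((1 - ρ) ^ κ * phi A ρ ^ 2) := by
  classical
  obtain ⟨B, hB0, hB⟩ := mono_bound (rr k i A) n0 hmono
  have hk0 : (0 : ℝ) < k := by exact_mod_cast (by omega : 0 < k)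
  have hk2 : (2 : ℝ) ≤ k := by exact_mod_cast hk
  have hf1 : (1 : ℝ) ≤ k.factorial := by exact_mod_cast Nat.factorial_pos k
  set L : ℝ := 2 * k.factorial * (3 + 2 * B) with hL
  have hL1 : 1 ≤ L := by nlinarith
  set S0 : ℝ := (2 * (k * k.factorial) * (2 * k) ^ k) ^ 2 with hS0
  have hS00 : 0 ≤ S0 := by positivity
  have hIi : IntervalIntegrable (fun θ : ℝ => θ ^ (-κ)) MeasureTheory.volume 0 Real.pi :=
    intervalIntegral.intervalIntegrable_rpow' (by linarith)
  set I : ℝ := ∫ θ in (0 : ℝ)..Real.pi, θ ^ (-κ) with hI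
  have hI0 : 0 ≤ I := intervalIntegral.integral_nonneg Real.pi_pos.le fun θ hθ =>
    Real.rpow_nonneg hθ.1 _
  refine ⟨8 * L ^ 2 * I + 4 * S0 + 4, by positivity, fun ρ hρ0 hρ1 hY => ?_⟩
  have hρ : 0 < ρ := by linarith
  set Φ := phi A ρ with hΦ
  have hΦ0 : 0 < Φ := by
    rcases (phi_nonneg A ρ hρ.le).lt_or_eq with h | h
    · exact h
    · rw [hΦ, ← h, zero_pow (by omega)] at hY
      linarith
  set Z : ℝ := (1 - ρ) ^ κ * Φ ^ 2 with hZ
  have hZ1 : 1 / 2 ≤ Z := by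
    have h1 : (1 - ρ) ^ (2 / k : ℝ) ≤ (1 - ρ) ^ κ :=
      Real.rpow_le_rpow_of_exponent_ge (by linarith) (by linarith) hκ
    have h2 : ((1 - ρ) * Φ ^ k) ^ (2 / k : ℝ) = (1 - ρ) ^ (2 / k : ℝ) * Φ ^ 2 := by
      rw [Real.mul_rpow (by linarith) (by positivity), ← Real.rpow_natCast Φ k,
        ← Real.rpow_mul hΦ0.le, mul_div_cancel₀ _ hk0.ne', Real.rpow_two]
    have h3 : (1 / 2 : ℝ) ^ (2 / k : ℝ) ≤ ((1 - ρ) * Φ ^ k) ^ (2 / k : ℝ) :=
      Real.rpow_le_rpow (by norm_num) hY (by positivity)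
    have h4 : (1 / 2 : ℝ) ^ (1 : ℝ) ≤ (1 / 2 : ℝ) ^ (2 / k : ℝ) :=
      Real.rpow_le_rpow_of_exponent_ge (by norm_num) (by norm_num)
        (by rw [div_le_one hk0]; exact hk2)
    rw [Real.rpow_one] at h4
    have h5 : (1 - ρ) ^ (2 / k : ℝ) * Φ ^ 2 ≤ Z := by rw [hZ]; gcongr
    linarith
  have hlim : Tendsto (fun M : ℕ => (M : ℝ) ^ k * ρ ^ M) atTop (𝓝 0) :=
    tendsto_pow_const_mul_const_pow_of_abs_lt_one k (by rw [abs_of_pos hρ]; exact hρ1)
  obtain ⟨M0, hM0⟩ := eventually_atTop.mp (hlim.eventually_le_const (by norm_num : (0 : ℝ) < 1 / 4))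
  have key : ∀ M : ℕ, M0 ≤ M → ∑ a ∈ range (M + 1), xA A (ρ ^ 2) a ≤
      (8 * L ^ 2 * I + 4 * S0 + 4) * Z := by
    intro M hM
    have hsmall := hM0 (M + 1) (by omega)
    set P := ∑ a ∈ range (M + 1), xA A (ρ ^ 2) a with hP
    have hP0 : 0 ≤ P := sum_nonneg fun a _ => xA_nonneg A _ (by positivity) a
    set y : ℕ → ℝ → ℝ := fun b θ => ‖∑ a ∈ range (M + 1),
      ((xA A ρ a ^ (b + 1) : ℝ) : ℂ) * Complex.exp (θ * Complex.I) ^ (a * (b + 1))‖ with hy
    have hyc : ∀ b, Continuous (y b) := fun b => by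
      simp only [hy]
      fun_prop
    have hy0 : ∀ b θ, 0 ≤ y b θ := fun b θ => norm_nonneg _
    have hint : ∀ b, ∫ θ in (0 : ℝ)..Real.pi, y b θ ^ 2 ≤ Real.pi * P := by
      intro b
      simp only [hy]
      rw [parseval _ _ _ (by omega)]
      refine mul_le_mul_of_nonneg_left (sum_le_sum fun a _ => ?_) Real.pi_pos.le
      rw [← xA_sq]
      have a0 := xA_nonneg A ρ hρ.le a
      have a1 : xA A ρ a ≤ 1 := (xA_le A ρ hρ.le a).trans (pow_le_one₀ hρ.le hρ1.le)
      rw [← pow_mul]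
      exact pow_le_pow_of_le_one a0 a1 (by omega)
    have hint0 : ∫ θ in (0 : ℝ)..Real.pi, y 0 θ ^ 2 = Real.pi * P := by
      simp only [hy]
      rw [parseval _ _ _ (by omega)]
      simp only [zero_add, pow_one, xA_sq, hP]
    have hpt : ∀ θ ∈ Set.Ioo 0 Real.pi, y 0 θ ^ 2 ≤
        4 * L ^ 2 * Z * θ ^ (-κ) + (S0 + 1 + 1 / (2 * k) * ∑ b ∈ range k, y b θ ^ 2) := by
      intro θ hθ
      set z : ℂ := (ρ : ℂ) * Complex.exp (θ * Complex.I) with hz
      have hzn : ‖z‖ = ρ := by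
        rw [hz, norm_mul, Complex.norm_exp_ofReal_mul_I, mul_one, Complex.norm_real,
          Real.norm_of_nonneg hρ.le]
      obtain ⟨c1, c2⟩ := circle_lower ρ θ hρ0 hρ1 hθ.1.le hθ.2.le
      rw [← hz] at c1 c2
      have hd : 0 < ‖1 - z‖ := by linarith
      set S : ℝ := 1 + ∑ b ∈ range k, y b θ with hS
      have hsum0 : 0 ≤ ∑ b ∈ range k, y b θ := sum_nonneg fun b _ => hy0 b θ
      have hyb : ∀ b, ‖∑ a ∈ range (M + 1), xA A z a ^ (b + 1)‖ = y b θ := by
        intro b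
        simp only [hy, hz]
        congr 1
        exact sum_congr rfl fun a _ => xA_mul A ρ _ a _ (by omega)
      have hle : ∀ b < k, y b θ ≤ S := by
        intro b hb
        have := single_le_sum (f := fun b => y b θ) (fun b _ => hy0 b θ) (mem_range.mpr hb)
        linarith
      have h1 := pointwise k i (xA A z) (M + 1) S (by linarith)
        (fun b hb => by rw [hyb]; exact hle b hb)
      have e0 : ‖∑ a ∈ range (M + 1), xA A z a‖ = y 0 θ := by
        rw [← hyb 0]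
        simp
      rw [e0] at h1
      have h2 := tail k i A z (by linarith) (M + 1)
      have h3 := hB z (by linarith) M
      rw [norm_mul, hzn] at h3
      rw [hzn] at h2
      have h4 := gen_le k i A ρ hρ.le hρ1 (M + 1)
      have h5 : (rr k i A M : ℝ) * ρ ^ (M + 1) ≤ 1 / 4 := by
        refine le_trans ?_ hsmall
        refine mul_le_mul_of_nonneg_right ?_ (by positivity)
        exact_mod_cast rr_le k i A M
      have h6 : ‖1 - z‖ ≤ 2 := by
        refine (norm_sub_le _ _).trans ?_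
        rw [hzn, norm_one]
        linarith
      set W := ‖∑ a ∈ TT k i (M + 1), ∏ j, xA A z (a j)‖ with hW
      have h7 : ‖1 - z‖ * W ≤ (3 + 2 * B) * ((1 - ρ) * Φ ^ k) := by
        have a1 := mul_le_mul_of_nonneg_left h2 hd.le
        have a2 := mul_le_mul_of_nonneg_left h4 (by linarith : 0 ≤ 1 - ρ)
        have a3 : ‖1 - z‖ * (((M + 1 : ℕ) : ℝ) ^ k * ρ ^ (M + 1)) ≤ 2 * (1 / 4) :=
          mul_le_mul h6 hsmall (by positivity) (by norm_num)
        have a4 := mul_le_mul_of_nonneg_left hY (by linarith : 0 ≤ 2 + 2 * B)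
        linarith
      set u : ℝ := (1 - ρ) / ‖1 - z‖ with hu
      have hu0 : 0 < u := div_pos (by linarith) hd
      have hu1 : u ≤ 1 := (div_le_one hd).mpr c2
      have h8 : 2 * (k.factorial * W) ≤ L * Φ ^ k * u := by
        rw [hu, ← mul_div_assoc, le_div_iff₀ hd, hL]
        have := mul_le_mul_of_nonneg_left h7 (by positivity : (0 : ℝ) ≤ 2 * k.factorial)
        linarith
      have h9 := dichotomy k hk (y 0 θ) S (k.factorial * W) L Φ u κ (hy0 0 θ) (hle 0 (by omega))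
        (by linarith) hL1 hΦ0 hu0 hu1 hκ h8 h1
      have h10 : u ^ κ ≤ 4 * ((1 - ρ) ^ κ * θ ^ (-κ)) := by
        have a1 : u ≤ 4 * ((1 - ρ) * θ⁻¹) := by
          rw [hu, div_le_iff₀ hd]
          have a2 : 1 ≤ 4 * θ⁻¹ * ‖1 - z‖ := by
            rw [mul_comm 4, mul_assoc, ← div_eq_inv_mul, le_div_iff₀ hθ.1]
            linarith
          have a3 := mul_le_mul_of_nonneg_left a2 (by linarith : 0 ≤ 1 - ρ)
          linarith
        have hθ' : 0 ≤ θ⁻¹ := inv_nonneg.mpr hθ.1.le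
        calc u ^ κ ≤ (4 * ((1 - ρ) * θ⁻¹)) ^ κ := Real.rpow_le_rpow hu0.le a1 hκ0.le
          _ = 4 ^ κ * ((1 - ρ) ^ κ * θ ^ (-κ)) := by
            rw [Real.mul_rpow (by norm_num) (mul_nonneg (by linarith) hθ'),
              Real.mul_rpow (by linarith) hθ', Real.inv_rpow hθ.1.le, Real.rpow_neg hθ.1.le]
          _ ≤ _ := by
            refine mul_le_mul_of_nonneg_right ?_ (mul_nonneg (Real.rpow_nonneg (by linarith) _)
              (Real.rpow_nonneg hθ.1.le _))
            calc (4 : ℝ) ^ κ ≤ 4 ^ (1 : ℝ) :=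
                  Real.rpow_le_rpow_of_exponent_le (by norm_num) hκ1.le
              _ = 4 := Real.rpow_one 4
      have h11 : L ^ 2 * Φ ^ 2 * u ^ κ ≤ 4 * L ^ 2 * Z * θ ^ (-κ) := by
        calc _ ≤ L ^ 2 * Φ ^ 2 * (4 * ((1 - ρ) ^ κ * θ ^ (-κ))) := by gcongr
          _ = _ := by rw [hZ]; ring
      have h12 : (∑ b ∈ range k, y b θ) ^ 2 ≤ k * ∑ b ∈ range k, y b θ ^ 2 := by
        have := sq_sum_le_card_mul_sum_sq (s := range k) (f := fun b => y b θ)
        rwa [card_range] at this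
      have h13 : S ^ 2 ≤ 2 + 2 * (k * ∑ b ∈ range k, y b θ ^ 2) := by
        rw [hS]
        linarith [sq_nonneg (1 - ∑ b ∈ range k, y b θ)]
      have h14 : (1 / (2 * k) : ℝ) ^ 2 * S ^ 2 ≤
          1 + 1 / (2 * k) * ∑ b ∈ range k, y b θ ^ 2 := by
        calc _ ≤ (1 / (2 * k) : ℝ) ^ 2 * (2 + 2 * (k * ∑ b ∈ range k, y b θ ^ 2)) := by gcongr
          _ = 2 * (1 / (2 * k) : ℝ) ^ 2 + 1 / (2 * k) * ∑ b ∈ range k, y b θ ^ 2 := by
            field_simp
          _ ≤ _ := by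
            have : (1 / (2 * k) : ℝ) ≤ 1 / 2 :=
              one_div_le_one_div_of_le (by norm_num) (by linarith)
            have h0 : (0 : ℝ) ≤ 1 / (2 * k) := by positivity
            have h00 := pow_le_pow_left₀ h0 this 2
            linarith
      linarith
    have i2 : IntervalIntegrable (fun θ => S0 + 1 + 1 / (2 * k) * ∑ b ∈ range k, y b θ ^ 2)
        MeasureTheory.volume 0 Real.pi := Continuous.intervalIntegrable (by fun_prop) _ _
    have h1 := intervalIntegral.integral_mono_on_of_le_Ioo Real.pi_pos.le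
      (((hyc 0).pow 2).intervalIntegrable _ _) ((hIi.const_mul (4 * L ^ 2 * Z)).add i2) hpt
    rw [intervalIntegral.integral_add (hIi.const_mul (4 * L ^ 2 * Z)) i2,
      intervalIntegral.integral_const_mul, ← hI,
      intervalIntegral.integral_add (Continuous.intervalIntegrable (by fun_prop) _ _)
        (Continuous.intervalIntegrable (by fun_prop) _ _),
      intervalIntegral.integral_const, intervalIntegral.integral_const_mul,
      intervalIntegral.integral_finsetSum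
        (fun b _ => Continuous.intervalIntegrable (by fun_prop) _ _)] at h1
    have h2 : ∑ b ∈ range k, ∫ θ in (0 : ℝ)..Real.pi, y b θ ^ 2 ≤ k * (Real.pi * P) := by
      refine (sum_le_sum fun b _ => hint b).trans (le_of_eq ?_)
      rw [sum_const, card_range, nsmul_eq_mul]
    have h3 : 1 / (2 * k) * ∑ b ∈ range k, ∫ θ in (0 : ℝ)..Real.pi, y b θ ^ 2 ≤
        Real.pi * P / 2 := by
      calc _ ≤ 1 / (2 * k) * (k * (Real.pi * P)) := by gcongr
        _ = _ := by field_simp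
    have h4 : ∫ θ in (0 : ℝ)..Real.pi, (y 0 ^ 2) θ = Real.pi * P := hint0
    rw [h4, sub_zero, smul_eq_mul] at h1
    have hpi := Real.pi_gt_three
    have h5 : 0 ≤ L ^ 2 * Z * I := by positivity
    have h6 : Real.pi * P ≤ Real.pi * (8 * (L ^ 2 * Z * I) + 2 * (S0 + 1)) := by
      have a1 := mul_le_mul_of_nonneg_right (by linarith : (1 : ℝ) ≤ Real.pi) h5
      linarith
    have h7 := le_of_mul_le_mul_left h6 Real.pi_pos
    have a2 := mul_le_mul_of_nonneg_left hZ1 (by linarith : 0 ≤ 4 * S0 + 4)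
    linarith
  refine Real.tsum_le_of_sum_range_le (xA_nonneg A _ (by positivity)) fun M => ?_
  refine le_trans ?_ (key (max M M0) (le_max_right _ _))
  refine sum_le_sum_of_subset_of_nonneg (range_subset_range.mpr ?_)
    fun a _ _ => xA_nonneg A _ (by positivity) a
  exact le_trans (le_max_left _ _) (Nat.le_succ _)

lemma lower_phi (k i : ℕ) (A : Set ℕ) (n1 : ℕ) (h : ∀ n, n1 ≤ n → 1 ≤ rr k i A n) (ρ : ℝ)
    (h0 : 0 ≤ ρ) (h1 : ρ < 1) : ρ ^ n1 ≤ (1 - ρ) * phi A ρ ^ k := by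
  have hlim : Tendsto (fun M : ℕ => ρ ^ n1 - ρ ^ M) atTop (𝓝 (ρ ^ n1 - 0)) :=
    (tendsto_pow_atTop_nhds_zero_of_lt_one h0 h1).const_sub _
  rw [sub_zero] at hlim
  refine le_of_tendsto hlim ?_
  filter_upwards [eventually_ge_atTop n1] with M hM
  refine le_trans ?_ (mul_le_mul_of_nonneg_left (gen_le k i A ρ h0 h1 M) (by linarith))
  induction M, hM using Nat.le_induction with
  | base =>
    rw [sub_self]
    exact mul_nonneg (by linarith) (sum_nonneg fun n _ => by positivity)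
  | succ M hM ih =>
    rw [sum_range_succ, mul_add]
    have h2 : (1 : ℝ) ≤ rr k i A M := by exact_mod_cast h M hM
    have h3 : (1 - ρ) * ρ ^ M ≤ (1 - ρ) * (rr k i A M * ρ ^ M) :=
      mul_le_mul_of_nonneg_left (le_mul_of_one_le_left (by positivity) h2) (by linarith)
    have h4 : (1 - ρ) * ρ ^ M = ρ ^ M - ρ ^ (M + 1) := by ring
    linarith

open Classical in
lemma upper_phi (A : Set ℕ) (C β : ℝ) (hC : 0 ≤ C) (hβ0 : 0 ≤ β) (hβ1 : β ≤ 1)
    (h : ∀ n : ℕ, (((range (n + 1)).filter (· ∈ A)).card : ℝ) ≤ C * ((n : ℝ) + 1) ^ β) (ρ : ℝ)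
    (h0 : 0 ≤ ρ) (h1 : ρ < 1) : phi A ρ ≤ 2 * C * (1 / (1 - ρ)) ^ β := by
  have hab : ∀ M, ∑ a ∈ range M, xA A ρ a =
      (1 - ρ) * ∑ n ∈ range M, (((range (n + 1)).filter (· ∈ A)).card : ℝ) * ρ ^ n +
        (((range M).filter (· ∈ A)).card : ℝ) * ρ ^ M := by
    intro M
    induction M with
    | zero => simp
    | succ M ih =>
      rw [sum_range_succ, sum_range_succ, ih, range_add_one, filter_insert]
      unfold xA
      split_ifs
      · rw [card_insert_of_notMem (by simp)]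
        push_cast
        ring
      · ring
  set N : ℝ := 1 / (1 - ρ) with hN
  have hρ : 0 < 1 - ρ := by linarith
  have hN0 : 0 < N := by positivity
  have hs : HasSum (fun n : ℕ => ρ ^ n + (1 - ρ) * (n * ρ ^ n + ρ ^ n))
      ((1 - ρ)⁻¹ + (1 - ρ) * (ρ / (1 - ρ) ^ 2 + (1 - ρ)⁻¹)) :=
    (hasSum_geometric_of_lt_one h0 h1).add
      (((hasSum_coe_mul_geometric_of_norm_lt_one (by rwa [Real.norm_of_nonneg h0])).add
        (hasSum_geometric_of_lt_one h0 h1)).mul_left _)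
  have hb : ∀ M, ∑ a ∈ range M, xA A ρ a ≤ 2 * C * N ^ β + M * ρ ^ M := by
    intro M
    rw [hab]
    refine add_le_add ?_ (mul_le_mul_of_nonneg_right ?_ (by positivity))
    · have h2 : ∑ n ∈ range M, (((range (n + 1)).filter (· ∈ A)).card : ℝ) * ρ ^ n ≤
          ∑ n ∈ range M, C * N ^ β * (ρ ^ n + (1 - ρ) * (n * ρ ^ n + ρ ^ n)) := by
        refine sum_le_sum fun n _ => ?_
        have h3 : ((n : ℝ) + 1) ^ β ≤ N ^ β * (1 + (1 - ρ) * (n + 1)) := by
          have e : (n : ℝ) + 1 = N * ((1 - ρ) * (n + 1)) := by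
            rw [hN]
            field_simp
          have hx : 0 ≤ (1 - ρ) * ((n : ℝ) + 1) := by positivity
          nth_rewrite 1 [e]
          rw [Real.mul_rpow hN0.le hx]
          refine mul_le_mul_of_nonneg_left ?_ (by positivity)
          rcases le_total ((1 - ρ) * ((n : ℝ) + 1)) 1 with h4 | h4
          · have := Real.rpow_le_one hx h4 hβ0
            linarith
          · have := Real.rpow_le_rpow_of_exponent_le h4 hβ1
            rw [Real.rpow_one] at this
            linarith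
        calc _ ≤ C * (N ^ β * (1 + (1 - ρ) * (n + 1))) * ρ ^ n := by
              refine mul_le_mul_of_nonneg_right ((h n).trans ?_) (by positivity)
              gcongr
          _ = _ := by ring
      rw [← mul_sum] at h2
      have h4 := sum_le_hasSum (range M) (fun n _ => by positivity) hs
      calc _ ≤ (1 - ρ) * (C * N ^ β * ((1 - ρ)⁻¹ + (1 - ρ) * (ρ / (1 - ρ) ^ 2 + (1 - ρ)⁻¹))) := by
            refine mul_le_mul_of_nonneg_left (h2.trans ?_) hρ.le
            gcongr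
        _ = _ := by
            field_simp
            ring
    · exact_mod_cast (card_filter_le _ _).trans (card_range M).le
  have l1 := (xA_summable A ρ h0 h1).hasSum.tendsto_sum_nat
  have l2 : Tendsto (fun M : ℕ => 2 * C * N ^ β + M * ρ ^ M) atTop (𝓝 (2 * C * N ^ β + 0)) :=
    (tendsto_self_mul_const_pow_of_lt_one h0 h1).const_add _
  rw [add_zero] at l2
  exact le_of_tendsto_of_tendsto' l1 l2 hb

lemma rr_pos (k i : ℕ) (hk : 2 ≤ k) (A : Set ℕ) (hA : A.Infinite) (n0 : ℕ)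
    (hmono : ∀ n, n0 ≤ n → rr k i A n ≤ rr k i A (n + 1)) :
    ∃ n1, ∀ n, n1 ≤ n → 1 ≤ rr k i A n := by
  classical
  have hsm : StrictMono (Nat.nth (· ∈ A)) := Nat.nth_strictMono hA
  set a : Fin k → ℕ := fun j => Nat.nth (· ∈ A) (n0 + j) with ha
  have hs : StrictMono a := fun i j hij => hsm (by simpa using hij)
  refine ⟨∑ j, a j, fun n hn => ?_⟩
  have h0 : n0 ≤ ∑ j, a j := by
    have h1 := single_le_sum (f := a) (fun _ _ => Nat.zero_le _) (mem_univ ⟨0, by omega⟩)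
    have h2 : n0 ≤ a ⟨0, by omega⟩ := hsm.id_le n0
    omega
  induction n, hn using Nat.le_induction with
  | base =>
    rw [rr_eq k i A _ _ (Nat.lt_succ_self _)]
    refine card_pos.mpr ⟨a, ?_⟩
    simp only [TT, mem_filter, mem_box, true_and]
    refine ⟨⟨fun j => ?_, fun _ => hs.monotone, fun _ => hs⟩, fun j => Nat.nth_mem_of_infinite hA _⟩
    exact Nat.lt_succ_of_le (single_le_sum (f := a) (fun _ _ => Nat.zero_le _) (mem_univ j))
  | succ n hn ih => exact ih.trans (hmono n (h0.trans hn))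

theorem main (k i : ℕ) (hk : 2 ≤ k) (ε : ℝ) (hε : 0 < ε) (A : Set ℕ) (hA : A.Infinite) (n0 : ℕ)
    (hmono : ∀ n, n0 ≤ n → rr k i A n ≤ rr k i A (n + 1)) :
    ¬ Asymptotics.IsBigO Filter.atTop (fun n : ℕ => ((A ∩ Set.Icc 1 n).ncard : ℝ))
      (fun n : ℕ => (n : ℝ) ^ ((2 : ℝ) / (k : ℝ) - ε)) := by
  classical
  intro hO
  have hk0 : (0 : ℝ) < k := by exact_mod_cast (by omega : 0 < k)
  have hk2 : (2 : ℝ) ≤ k := by exact_mod_cast hk
  set e : ℝ := min ε (1 / k) with he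
  have he0 : 0 < e := lt_min hε (by positivity)
  have he1 : e ≤ ε := min_le_left _ _
  have he2 : e ≤ 1 / k := min_le_right _ _
  have h2k : (2 : ℝ) / k = 2 * (1 / k) := by ring
  have h2k1 : (2 : ℝ) / k ≤ 1 := by rw [div_le_one hk0]; exact hk2
  set β : ℝ := 2 / k - e with hβ
  set κ : ℝ := 2 / k - e / 2 with hκ
  have hβ0 : 0 ≤ β := by linarith
  have hβ1 : β ≤ 1 := by linarith
  obtain ⟨C0, hC0⟩ := hO.bound
  obtain ⟨N0, hN0⟩ := eventually_atTop.mp hC0
  have hcnt : ∀ n : ℕ, (((range (n + 1)).filter (· ∈ A)).card : ℝ) ≤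
      (2 + N0 + |C0|) * ((n : ℝ) + 1) ^ β := by
    intro n
    have n0' : (0 : ℝ) ≤ n := Nat.cast_nonneg n
    have h1 : 1 ≤ ((n : ℝ) + 1) ^ β := Real.one_le_rpow (by linarith) hβ0
    have hN : (0 : ℝ) ≤ N0 := Nat.cast_nonneg _
    have hC := abs_nonneg C0
    by_cases hn : n ≤ N0
    · have h2 : (((range (n + 1)).filter (· ∈ A)).card : ℝ) ≤ N0 + 1 := by
        exact_mod_cast (card_filter_le _ _).trans (by rw [card_range]; omega)
      nlinarith
    · have h2 := hN0 n (by omega)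
      have hn1 : (1 : ℝ) ≤ n := by exact_mod_cast (by omega : 1 ≤ n)
      rw [Real.norm_of_nonneg (Nat.cast_nonneg _), Real.norm_of_nonneg (by positivity)] at h2
      have h3 : (n : ℝ) ^ ((2 : ℝ) / (k : ℝ) - ε) ≤ ((n : ℝ) + 1) ^ β :=
        (Real.rpow_le_rpow_of_exponent_le hn1 (by linarith)).trans
          (Real.rpow_le_rpow n0' (by linarith) hβ0)
      have h4 : C0 * (n : ℝ) ^ ((2 : ℝ) / (k : ℝ) - ε) ≤ |C0| * ((n : ℝ) + 1) ^ β :=
        mul_le_mul (le_abs_self _) h3 (by positivity) hC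
      have h5 : A ∩ Set.Icc 1 n = ↑((Icc 1 n).filter (· ∈ A)) := by
        ext a
        simp only [Set.mem_inter_iff, Set.mem_Icc, coe_filter, mem_Icc, Set.mem_ofPred_eq]
        tauto
      rw [h5, Set.ncard_coe_finset] at h2
      have h6 : ((range (n + 1)).filter (· ∈ A)).card ≤ ((Icc 1 n).filter (· ∈ A)).card + 1 := by
        refine le_trans (card_le_card ?_) (card_insert_le 0 _)
        intro a ha
        simp only [mem_filter, mem_range, mem_insert, mem_Icc] at ha ⊢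
        by_cases h0 : a = 0
        · exact Or.inl h0
        · exact Or.inr ⟨⟨by omega, by omega⟩, ha.2⟩
      have h7 : (((range (n + 1)).filter (· ∈ A)).card : ℝ) ≤
          ((Icc 1 n).filter (· ∈ A)).card + 1 := by exact_mod_cast h6
      nlinarith
  set C1 : ℝ := 2 + N0 + |C0| with hC1
  have hC10 : 0 ≤ C1 := by positivity
  obtain ⟨n1, hn1⟩ := rr_pos k i hk A hA n0 hmono
  obtain ⟨C, hC, hfun⟩ := functional k i hk A n0 hmono κ (by linarith) (by linarith) (by linarith)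
  set ψ : ℝ → ℝ := fun t => 2 * C * (t ^ κ * phi A (Real.exp (-t))) with hψ
  have hexp1 : ∀ t : ℝ, 0 < t → Real.exp (-t) < 1 := fun t ht =>
    Real.exp_lt_one_iff.mpr (by linarith)
  have hY : ∀ t : ℝ, 0 < t → t ≤ 1 / (2 * (n1 + 1)) →
      1 / 2 ≤ Real.exp (-t) ∧ 1 / 2 ≤ (1 - Real.exp (-t)) * phi A (Real.exp (-t)) ^ k := by
    intro t ht ht1
    have n0' : (0 : ℝ) ≤ n1 := Nat.cast_nonneg _
    rw [le_div_iff₀ (by positivity)] at ht1
    constructor
    · have := Real.add_one_le_exp (-t)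
      nlinarith
    · refine le_trans ?_ (lower_phi k i A n1 hn1 _ (Real.exp_pos _).le (hexp1 t ht))
      rw [← Real.exp_nat_mul]
      have := Real.add_one_le_exp (n1 * -t)
      nlinarith
  have hstep : ∀ t : ℝ, 0 < t → t ≤ 1 / (2 * (n1 + 1)) → ψ (2 * t) ≤ ψ t ^ 2 := by
    intro t ht ht1
    obtain ⟨y1, y2⟩ := hY t ht ht1
    have h1 := hfun _ y1 (hexp1 t ht) y2
    have e1 : Real.exp (-(2 * t)) = Real.exp (-t) ^ 2 := by
      rw [← Real.exp_nat_mul]
      congr 1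
      push_cast
      ring
    have h2 : (1 - Real.exp (-t)) ^ κ ≤ t ^ κ := by
      refine Real.rpow_le_rpow (by linarith [hexp1 t ht]) ?_ (by linarith)
      have := Real.add_one_le_exp (-t)
      linarith
    have h3 : (2 * t) ^ κ ≤ 2 * t ^ κ := by
      rw [Real.mul_rpow (by norm_num) ht.le]
      refine mul_le_mul_of_nonneg_right ?_ (by positivity)
      calc (2 : ℝ) ^ κ ≤ 2 ^ (1 : ℝ) := Real.rpow_le_rpow_of_exponent_le (by norm_num) (by linarith)
        _ = 2 := Real.rpow_one 2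
    have h4 : phi A (Real.exp (-t) ^ 2) ≤ C * (t ^ κ * phi A (Real.exp (-t)) ^ 2) := by
      refine h1.trans ?_
      gcongr
    simp only [hψ]
    rw [e1]
    have p0 := phi_nonneg A (Real.exp (-t) ^ 2) (by positivity)
    calc _ ≤ 2 * C * (2 * t ^ κ * (C * (t ^ κ * phi A (Real.exp (-t)) ^ 2))) := by gcongr
      _ = _ := by ring
  have hψ0 : ∀ t, 0 < t → 0 ≤ ψ t := fun t ht => by
    have := phi_nonneg A (Real.exp (-t)) (Real.exp_pos _).le
    simp only [hψ]
    positivity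
  have hup : ∀ t : ℝ, 0 < t → t ≤ 1 → ψ t ≤ 8 * C * C1 * t ^ (e / 2) := by
    intro t ht ht1
    have h1 := upper_phi A C1 β hC10 hβ0 hβ1 hcnt _ (Real.exp_pos (-t)).le (hexp1 t ht)
    have h2 : 1 / (1 - Real.exp (-t)) ≤ 2 * t⁻¹ := by
      have a1 : Real.exp (-t) ≤ 1 - t / 2 := by
        rw [Real.exp_neg, inv_le_comm₀ (Real.exp_pos _) (by linarith)]
        refine le_trans ?_ (Real.add_one_le_exp t)
        rw [inv_le_iff_one_le_mul₀ (by linarith)]
        nlinarith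
      calc 1 / (1 - Real.exp (-t)) ≤ 1 / (t / 2) :=
            one_div_le_one_div_of_le (by linarith) (by linarith)
        _ = _ := by field_simp
    have h3 : (1 / (1 - Real.exp (-t))) ^ β ≤ 2 * t ^ (-β) := by
      calc _ ≤ (2 * t⁻¹) ^ β :=
            Real.rpow_le_rpow (div_nonneg zero_le_one (by linarith [hexp1 t ht])) h2 hβ0
        _ = 2 ^ β * t ^ (-β) := by
            rw [Real.mul_rpow (by norm_num) (by positivity), Real.inv_rpow ht.le,
              Real.rpow_neg ht.le]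
        _ ≤ _ := by
            refine mul_le_mul_of_nonneg_right ?_ (by positivity)
            calc (2 : ℝ) ^ β ≤ 2 ^ (1 : ℝ) := Real.rpow_le_rpow_of_exponent_le (by norm_num) hβ1
              _ = 2 := Real.rpow_one 2
    have h4 : t ^ (e / 2) = t ^ κ * t ^ (-β) := by
      rw [← Real.rpow_add ht]
      congr 1
      linarith
    simp only [hψ]
    calc _ ≤ 2 * C * (t ^ κ * (2 * C1 * (2 * t ^ (-β)))) := by
          refine mul_le_mul_of_nonneg_left (mul_le_mul_of_nonneg_left (h1.trans ?_)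
            (by positivity)) (by positivity)
          gcongr
      _ = _ := by rw [h4]; ring
  have hlim : Tendsto ψ (𝓝[>] 0) (𝓝 0) := by
    have l1 : Tendsto (fun t : ℝ => 8 * C * C1 * t ^ (e / 2)) (𝓝[>] 0) (𝓝 0) := by
      have c1 : ContinuousAt (fun t : ℝ => 8 * C * C1 * t ^ (e / 2)) 0 :=
        continuousAt_const.mul (Real.continuousAt_rpow_const 0 _ (Or.inr (by linarith)))
      have := c1.tendsto.mono_left (nhdsWithin_le_nhds (s := Set.Ioi 0))
      simpa [Real.zero_rpow (by linarith : e / 2 ≠ 0)] using this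
    refine squeeze_zero' ?_ ?_ l1
    · filter_upwards [self_mem_nhdsWithin] with t ht using hψ0 t ht
    · filter_upwards [Ioo_mem_nhdsGT (zero_lt_one (α := ℝ))] with t ht using hup t ht.1 ht.2.le
  obtain ⟨t1, ht1, ht1'⟩ := (mem_nhdsGT_iff_exists_Ioc_subset).mp
    ((hlim.eventually_le_const (zero_lt_one (α := ℝ))).and
      (Ioc_mem_nhdsGT (by positivity : (0 : ℝ) < 1 / (2 * (n1 + 1)))))
  have ht10 : 0 < t1 := ht1
  have hmem : ∀ j : ℕ, t1 * (1 / 2) ^ j ∈ Set.Ioc 0 t1 := fun j =>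
    ⟨by positivity, mul_le_of_le_one_right ht10.le (pow_le_one₀ (by norm_num) (by norm_num))⟩
  have hchain : ∀ j : ℕ, ψ t1 ≤ ψ (t1 * (1 / 2) ^ j) := by
    intro j
    induction j with
    | zero => simp
    | succ j ih =>
      obtain ⟨a1, a2⟩ := ht1' (hmem (j + 1))
      have a3 := hstep _ a2.1 a2.2
      have e2 : 2 * (t1 * (1 / 2) ^ (j + 1)) = t1 * (1 / 2) ^ j := by ring
      rw [e2] at a3
      have a4 := hψ0 _ a2.1
      have a5 := mul_le_mul_of_nonneg_left a1 a4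
      linarith
  have l2 : Tendsto (fun j : ℕ => t1 * (1 / 2 : ℝ) ^ j) atTop (𝓝[>] 0) := by
    refine tendsto_nhdsWithin_of_tendsto_nhds_of_eventually_within _ ?_
      (Eventually.of_forall fun j => (hmem j).1)
    simpa using (tendsto_pow_atTop_nhds_zero_of_lt_one (by norm_num : (0 : ℝ) ≤ 1 / 2)
      (by norm_num)).const_mul t1
  have h1 : ψ t1 ≤ 0 := ge_of_tendsto' (hlim.comp l2) hchain
  obtain ⟨-, a2⟩ := ht1' (Set.right_mem_Ioc.mpr ht10)
  obtain ⟨-, y2⟩ := hY t1 a2.1 a2.2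
  have h2 : 0 < phi A (Real.exp (-t1)) := by
    rcases (phi_nonneg A _ (Real.exp_pos (-t1)).le).lt_or_eq with h | h
    · exact h
    · rw [← h, zero_pow (by omega)] at y2
      linarith
  have h3 : 0 < ψ t1 := by
    simp only [hψ]
    positivity
  linarith

end Pool.Agent.H.MP_885588_nt
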